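import Pool.Agent.helper68.SF.SpecW

/-!
Project SF (MP_d52931_gt), block sw: module K0.
-/

set_option autoImplicit false

namespace SF

open MeasureTheory Set Filter
open scoped ContDiff Topology

/-- Abel transform of `g'` -/
noncomputable def K0_G (g : ℝ → ℝ) (v : ℝ) : ℝ := ∫ t : ℝ, deriv g (v + t ^ 2)

/-- the time derivative on the transforms -/
noncomputable def K0_T (φ : ℝ → ℝ) (v : ℝ) : ℝ := φ v + 2 * v * deriv φ v

/-- the outer integral -/
noncomputable def K0_K (φ : ℝ → ℝ) (s x y : ℝ) : ℝ :=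
  ∫ ξ in (0 : ℝ)..x, Real.exp s * φ (Real.exp (2 * s) * (ξ ^ 2 + y ^ 2) / y)

/-- differentiation under the integral -/
theorem K0_diff (Φ Φ' : ℝ → ℝ → ℝ) (e0 a b : ℝ) (U : Set ℝ) (hU : IsOpen U) (he0 : e0 ∈ U)
    (hΦ : ContinuousOn (fun p : ℝ × ℝ => Φ p.1 p.2) (U ×ˢ univ))
    (hΦ' : ContinuousOn (fun p : ℝ × ℝ => Φ' p.1 p.2) (U ×ˢ univ))
    (hd : ∀ e ∈ U, ∀ ξ, HasDerivAt (fun e => Φ e ξ) (Φ' e ξ) e) :
    HasDerivAt (fun e => ∫ ξ in a..b, Φ e ξ) (∫ ξ in a..b, Φ' e0 ξ) e0 := by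
  obtain ⟨δ, hδ, hball⟩ := Metric.isOpen_iff.1 hU e0 he0
  have hcomp : IsCompact (Metric.closedBall e0 (δ / 2) ×ˢ uIcc a b) :=
    (isCompact_closedBall _ _).prod isCompact_uIcc
  have hsub : Metric.closedBall e0 (δ / 2) ⊆ U :=
    (Metric.closedBall_subset_ball (by linarith)).trans hball
  have hsub2 : Metric.closedBall e0 (δ / 2) ×ˢ uIcc a b ⊆ U ×ˢ univ := prod_mono hsub (subset_univ _)
  obtain ⟨C, hC⟩ := hcomp.exists_bound_of_continuousOn (hΦ'.mono hsub2)
  have hcont : ∀ e ∈ U, Continuous (Φ e) := by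
    intro e he
    have : ContinuousOn (fun ξ => Φ e ξ) univ :=
      hΦ.comp (f := fun ξ : ℝ => (e, ξ)) (by fun_prop) (fun ξ _ => ⟨he, mem_univ _⟩)
    exact continuousOn_univ.1 this
  have hcont' : Continuous (Φ' e0) := by
    have : ContinuousOn (fun ξ => Φ' e0 ξ) univ :=
      hΦ'.comp (f := fun ξ : ℝ => (e0, ξ)) (by fun_prop) (fun ξ _ => ⟨he0, mem_univ _⟩)
    exact continuousOn_univ.1 this
  refine (intervalIntegral.hasDerivAt_integral_of_dominated_loc_of_deriv_le (F := Φ) (F' := Φ')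
    (s := Metric.closedBall e0 (δ / 2)) (bound := fun _ => C)
    (Metric.closedBall_mem_nhds _ (by positivity)) ?_ ?_ ?_ ?_ ?_ ?_).2
  · filter_upwards [hU.mem_nhds he0] with e he
    exact (hcont e he).aestronglyMeasurable
  · exact (hcont e0 he0).intervalIntegrable _ _
  · exact hcont'.aestronglyMeasurable
  · refine Eventually.of_forall fun t ht e he => ?_
    exact hC (e, t) ⟨he, uIoc_subset_uIcc ht⟩
  · exact intervalIntegrable_const
  · refine Eventually.of_forall fun t _ e he => ?_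
    exact hd e (hsub he) t

theorem K0_deriv_zero {g : ℝ → ℝ} (hg : Prof g) {a : ℝ} (ha : 3 < a) : deriv g a = 0 := by
  have : g =ᶠ[𝓝 a] fun _ => 0 := by
    filter_upwards [Ioi_mem_nhds ha] with b hb
    exact hg.hi b (le_of_lt hb)
  rw [this.deriv_eq]
  simp

theorem K0_smooth' {g : ℝ → ℝ} (hg : ContDiff ℝ ∞ g) : ContDiff ℝ ∞ (deriv g) :=
  (contDiff_infty_iff_deriv.1 hg).2

/-- the integral over the line is one over an interval -/
theorem K0_int {g : ℝ → ℝ} (hg : Prof g) {v R : ℝ} (hR : 0 < R) (h : 3 < v + R ^ 2) :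
    K0_G g v = ∫ t in (-R)..R, deriv g (v + t ^ 2) := by
  unfold K0_G
  symm
  apply intervalIntegral.integral_eq_integral_of_support_subset
  intro t ht
  rw [Function.mem_support] at ht
  have h1 : v + t ^ 2 ≤ 3 := by
    by_contra hn
    exact ht (K0_deriv_zero hg (not_le.1 hn))
  have h2 : t ^ 2 < R ^ 2 := by linarith
  have h3 := abs_lt_of_sq_lt_sq h2 hR.le
  rw [abs_lt] at h3
  exact ⟨h3.1, h3.2.le⟩

theorem K0_R (v : ℝ) : ∃ R : ℝ, 0 < R ∧ 3 < (v - 1) + R ^ 2 := by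
  refine ⟨|v| + 5, by positivity, ?_⟩
  have := neg_abs_le v
  nlinarith [abs_nonneg v]

theorem K0_Gsmooth (hPI : PI_stmt) {g : ℝ → ℝ} (hg : Prof g) : ContDiff ℝ ∞ (K0_G g) := by
  rw [contDiff_iff_contDiffAt]
  intro v
  obtain ⟨R, hR, h3⟩ := K0_R v
  have h1 : ContDiffOn ℝ ∞ (fun e : ℝ => ∫ t in (-R)..R, deriv g (e + t ^ 2)) (Ioi (v - 1)) := by
    apply hPI ℝ (Ioi (v - 1)) (fun e t => deriv g (e + t ^ 2)) (-R) R isOpen_Ioi
    apply ContDiff.contDiffOn
    have := K0_smooth' hg.smooth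
    fun_prop
  have h2 : ContDiffAt ℝ ∞ (fun e : ℝ => ∫ t in (-R)..R, deriv g (e + t ^ 2)) v :=
    h1.contDiffAt (Ioi_mem_nhds (by linarith))
  refine h2.congr_of_eventuallyEq ?_
  filter_upwards [Ioi_mem_nhds (show v - 1 < v by linarith)] with e he
  rw [mem_Ioi] at he
  exact K0_int hg hR (by linarith)

/-- derivative of the transform -/
theorem K0_Gderiv {g : ℝ → ℝ} (hg : Prof g) {v R : ℝ} (hR : 0 < R) (h : 3 < v - 1 + R ^ 2) :
    deriv (K0_G g) v = ∫ t in (-R)..R, deriv (deriv g) (v + t ^ 2) := by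
  have hs := K0_smooth' hg.smooth
  have hs2 := K0_smooth' hs
  have h1 : HasDerivAt (fun e => ∫ t in (-R)..R, deriv g (e + t ^ 2))
      (∫ t in (-R)..R, deriv (deriv g) (v + t ^ 2)) v := by
    apply K0_diff (fun e t => deriv g (e + t ^ 2)) (fun e t => deriv (deriv g) (e + t ^ 2)) v (-R) R univ
      isOpen_univ (mem_univ _)
    · have := hs.continuous
      fun_prop
    · have := hs2.continuous
      fun_prop
    · intro e _ t
      have h2 : HasDerivAt (deriv g) (deriv (deriv g) (e + t ^ 2)) (e + t ^ 2) :=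
        ((hs.differentiable (by norm_num)) _).hasDerivAt
      have h3 : HasDerivAt (fun e : ℝ => e + t ^ 2) 1 e := (hasDerivAt_id e).add_const _
      have := h2.comp e h3
      rwa [mul_one] at this
  have h2 : K0_G g =ᶠ[𝓝 v] fun e => ∫ t in (-R)..R, deriv g (e + t ^ 2) := by
    filter_upwards [Ioi_mem_nhds (show v - 1 < v by linarith)] with e he
    rw [mem_Ioi] at he
    exact K0_int hg hR (by linarith)
  rw [h2.deriv_eq]
  exact h1.deriv

theorem K0_DD_deriv {g : ℝ → ℝ} (hg : ContDiff ℝ ∞ g) (a : ℝ) :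
    deriv (DD g) a = 2 * deriv g a + 2 * a * deriv (deriv g) a := by
  have hs := K0_smooth' hg
  have h1 : HasDerivAt (fun a : ℝ => 2 * a) 2 a := by
    simpa using (hasDerivAt_id a).const_mul 2
  have h2 : HasDerivAt (deriv g) (deriv (deriv g) a) a := ((hs.differentiable (by norm_num)) _).hasDerivAt
  have h3 := h1.mul h2
  have : DD g = (fun a : ℝ => 2 * a) * deriv g := by
    funext b; rfl
  rw [this]
  exact h3.deriv

theorem K0_TG (hPD : PD_stmt) {g : ℝ → ℝ} (hg : Prof g) (v : ℝ) :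
    K0_T (K0_G g) v = K0_G (DD g) v := by
  obtain ⟨R, hR, h3⟩ := K0_R v
  have h3' : 3 < v + R ^ 2 := by linarith
  have hs := K0_smooth' hg.smooth
  have hs2 := K0_smooth' hs
  have hc1 := hs.continuous
  have hc2 := hs2.continuous
  unfold K0_T
  rw [K0_Gderiv hg hR h3, K0_int hg hR h3', K0_int (hPD g hg).1 hR h3']
  have e0 : ∀ t : ℝ, deriv (DD g) (v + t ^ 2) =
      (deriv g (v + t ^ 2) + 2 * v * deriv (deriv g) (v + t ^ 2)) +
        (deriv g (v + t ^ 2) + t * (deriv (deriv g) (v + t ^ 2) * (2 * t))) := by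
    intro t
    rw [K0_DD_deriv hg.smooth]
    ring
  simp only [e0]
  rw [intervalIntegral.integral_add, intervalIntegral.integral_add, intervalIntegral.integral_const_mul]
  · have h4 : ∫ t in (-R)..R, (deriv g (v + t ^ 2) + t * (deriv (deriv g) (v + t ^ 2) * (2 * t))) =
        R * deriv g (v + R ^ 2) - (-R) * deriv g (v + (-R) ^ 2) := by
      apply intervalIntegral.integral_eq_sub_of_hasDerivAt (f := fun t => t * deriv g (v + t ^ 2))
      · intro t _
        have h5 : HasDerivAt (deriv g) (deriv (deriv g) (v + t ^ 2)) (v + t ^ 2) :=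
          ((hs.differentiable (by norm_num)) _).hasDerivAt
        have h6 : HasDerivAt (fun t : ℝ => v + t ^ 2) (2 * t) t := by
          have := (hasDerivAt_pow 2 t).const_add v
          simpa using this
        have h7 := (hasDerivAt_id t).mul (h5.comp t h6)
        rw [one_mul] at h7
        exact h7
      · apply Continuous.intervalIntegrable
        fun_prop
    rw [h4, neg_sq, K0_deriv_zero hg h3']
    ring
  · apply Continuous.intervalIntegrable; fun_prop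
  · apply Continuous.intervalIntegrable; fun_prop
  · apply Continuous.intervalIntegrable; fun_prop
  · apply Continuous.intervalIntegrable; fun_prop

theorem K0_TG' (hPD : PD_stmt) {g : ℝ → ℝ} (hg : Prof g) : K0_T (K0_G g) = K0_G (DD g) :=
  funext fun v => K0_TG hPD hg v

/-- the kernel -/
theorem K0_k0 (g : ℝ → ℝ) (s x y : ℝ) (hy : 0 < y) :
    k0 g s x y = -(1 / Real.pi) * K0_K (K0_G g) s x y := by
  have hE : 0 < Real.exp s := Real.exp_pos s
  have hsq : 0 < √y := Real.sqrt_pos.2 hy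
  have hexp : Real.exp (2 * s) = Real.exp s ^ 2 := by
    rw [← Real.exp_nat_mul]; norm_num
  have hA : (Real.exp s / √y) ^ 2 = Real.exp (2 * s) / y := by
    rw [div_pow, Real.sq_sqrt hy.le, hexp]
  have h1 : ∀ ξ : ℝ, ∫ t : ℝ, deriv g (Real.exp (2 * s) * (ξ ^ 2 + t ^ 2 + y ^ 2) / y) =
      (√y / Real.exp s) * K0_G g (Real.exp (2 * s) * (ξ ^ 2 + y ^ 2) / y) := by
    intro ξ
    have h2 := Measure.integral_comp_mul_left
      (fun τ : ℝ => deriv g (Real.exp (2 * s) * (ξ ^ 2 + y ^ 2) / y + τ ^ 2)) (Real.exp s / √y)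
    have h3 : ∀ t : ℝ, Real.exp (2 * s) * (ξ ^ 2 + y ^ 2) / y + (Real.exp s / √y * t) ^ 2 =
        Real.exp (2 * s) * (ξ ^ 2 + t ^ 2 + y ^ 2) / y := by
      intro t
      rw [mul_pow, hA]
      ring
    simp only [h3] at h2
    rw [h2, inv_div, abs_of_pos (by positivity), smul_eq_mul]
    rfl
  unfold k0 K0_K
  simp only [h1]
  rw [intervalIntegral.integral_const_mul, intervalIntegral.integral_const_mul, hexp]
  have hpi := Real.pi_pos
  field_simp

/-- smoothness -/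
theorem K0_Ksmooth (hPI : PI_stmt) {φ : ℝ → ℝ} (hφ : ContDiff ℝ ∞ φ) : Sm (K0_K φ) := by
  have h0 : ∀ p : ℝ × ℝ × ℝ, K0_K φ p.1 p.2.1 p.2.2 = p.2.1 * ∫ v in (0 : ℝ)..1,
      Real.exp p.1 * φ (Real.exp (2 * p.1) * ((p.2.1 * v) ^ 2 + p.2.2 ^ 2) / p.2.2) := by
    intro p
    have := intervalIntegral.smul_integral_comp_mul_left
      (f := fun ξ => Real.exp p.1 * φ (Real.exp (2 * p.1) * (ξ ^ 2 + p.2.2 ^ 2) / p.2.2)) (a := 0) (b := 1)
      p.2.1
    rw [mul_zero, mul_one, smul_eq_mul] at this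
    rw [this]
    rfl
  have h1 : IsOpen {p : ℝ × ℝ × ℝ | 0 < p.2.2} := isOpen_lt continuous_const (by fun_prop)
  have h2 := hPI (ℝ × ℝ × ℝ) {p : ℝ × ℝ × ℝ | 0 < p.2.2}
    (fun p v => Real.exp p.1 * φ (Real.exp (2 * p.1) * ((p.2.1 * v) ^ 2 + p.2.2 ^ 2) / p.2.2)) 0 1 h1 (by
      have h3 : ContDiffOn ℝ ∞ (fun q : (ℝ × ℝ × ℝ) × ℝ =>
          Real.exp (2 * q.1.1) * ((q.1.2.1 * q.2) ^ 2 + q.1.2.2 ^ 2) / q.1.2.2)
          ({p : ℝ × ℝ × ℝ | 0 < p.2.2} ×ˢ univ) := by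
        apply ContDiffOn.div
        · apply ContDiff.contDiffOn; fun_prop
        · apply ContDiff.contDiffOn; fun_prop
        · rintro q ⟨hq, -⟩
          exact ne_of_gt hq
      have h4 : ContDiffOn ℝ ∞ (fun q : (ℝ × ℝ × ℝ) × ℝ => Real.exp q.1.1)
          ({p : ℝ × ℝ × ℝ | 0 < p.2.2} ×ˢ univ) := by
        apply ContDiff.contDiffOn; fun_prop
      exact h4.mul (hφ.comp_contDiffOn h3))
  have h5 : ContDiffOn ℝ ∞ (fun p : ℝ × ℝ × ℝ => p.2.1) {p : ℝ × ℝ × ℝ | 0 < p.2.2} := by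
    apply ContDiff.contDiffOn; fun_prop
  unfold Sm
  refine (h5.mul h2).congr fun p _ => ?_
  exact h0 p

theorem K0_Tsmooth {φ : ℝ → ℝ} (hφ : ContDiff ℝ ∞ φ) : ContDiff ℝ ∞ (K0_T φ) := by
  have h1 := K0_smooth' hφ
  unfold K0_T
  fun_prop

theorem K0_dS {φ : ℝ → ℝ} (hφ : ContDiff ℝ ∞ φ) (s x y : ℝ) :
    HasDerivAt (fun t => K0_K φ t x y) (K0_K (K0_T φ) s x y) s := by
  have h1 := K0_smooth' hφ
  have hc := hφ.continuous
  have hc1 := h1.continuous
  apply K0_diff (fun t ξ => Real.exp t * φ (Real.exp (2 * t) * (ξ ^ 2 + y ^ 2) / y))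
    (fun t ξ => Real.exp t * K0_T φ (Real.exp (2 * t) * (ξ ^ 2 + y ^ 2) / y)) s 0 x univ isOpen_univ (mem_univ _)
  · apply Continuous.continuousOn; fun_prop
  · apply Continuous.continuousOn
    have := (K0_Tsmooth hφ).continuous
    fun_prop
  · intro t _ ξ
    have h2 : HasDerivAt φ (deriv φ (Real.exp (2 * t) * (ξ ^ 2 + y ^ 2) / y))
        (Real.exp (2 * t) * (ξ ^ 2 + y ^ 2) / y) := ((hφ.differentiable (by norm_num)) _).hasDerivAt
    have h3 : HasDerivAt (fun t : ℝ => Real.exp (2 * t) * (ξ ^ 2 + y ^ 2) / y)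
        (Real.exp (2 * t) * 2 * (ξ ^ 2 + y ^ 2) / y) t := by
      have h4 : HasDerivAt (fun t : ℝ => Real.exp (2 * t)) (Real.exp (2 * t) * 2) t := by
        have := ((hasDerivAt_id t).const_mul 2).exp
        simpa using this
      exact (h4.mul_const _).div_const _
    have h5 := (Real.hasDerivAt_exp t).mul (h2.comp t h3)
    have e : Real.exp t * K0_T φ (Real.exp (2 * t) * (ξ ^ 2 + y ^ 2) / y) =
        Real.exp t * (φ ∘ fun t : ℝ => Real.exp (2 * t) * (ξ ^ 2 + y ^ 2) / y) t +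
          Real.exp t * (deriv φ (Real.exp (2 * t) * (ξ ^ 2 + y ^ 2) / y) *
            (Real.exp (2 * t) * 2 * (ξ ^ 2 + y ^ 2) / y)) := by
      unfold K0_T
      simp only [Function.comp]
      ring
    rw [e]
    exact h5

theorem K0_dX {φ : ℝ → ℝ} (hφ : ContDiff ℝ ∞ φ) (s x y : ℝ) :
    HasDerivAt (fun t => K0_K φ s t y) (Real.exp s * φ (Real.exp (2 * s) * (x ^ 2 + y ^ 2) / y)) x := by
  have hc := hφ.continuous
  have : Continuous (fun ξ : ℝ => Real.exp s * φ (Real.exp (2 * s) * (ξ ^ 2 + y ^ 2) / y)) := by fun_prop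
  exact (intervalIntegral.integral_hasDerivAt_right (this.intervalIntegrable _ _)
    (this.stronglyMeasurableAtFilter _ _) this.continuousAt)

theorem K0_dU {φ : ℝ → ℝ} (hφ : ContDiff ℝ ∞ φ) (s x y : ℝ) :
    HasDerivAt (fun t => Real.exp s * φ (Real.exp (2 * s) * (t ^ 2 + y ^ 2) / y))
      (Real.exp s * (deriv φ (Real.exp (2 * s) * (x ^ 2 + y ^ 2) / y) * (Real.exp (2 * s) * (2 * x) / y))) x := by
  have h2 : HasDerivAt φ (deriv φ (Real.exp (2 * s) * (x ^ 2 + y ^ 2) / y))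
      (Real.exp (2 * s) * (x ^ 2 + y ^ 2) / y) := ((hφ.differentiable (by norm_num)) _).hasDerivAt
  have h3 : HasDerivAt (fun t : ℝ => Real.exp (2 * s) * (t ^ 2 + y ^ 2) / y)
      (Real.exp (2 * s) * (2 * x) / y) x := by
    have h4 : HasDerivAt (fun t : ℝ => t ^ 2 + y ^ 2) (2 * x) x := by
      have := (hasDerivAt_pow 2 x).add_const (y ^ 2)
      simpa using this
    exact (h4.const_mul _).div_const _
  exact (h2.comp x h3).const_mul _

/-- derivative of the argument in `y` -/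
theorem K0_uy (s ξ y : ℝ) (hy : 0 < y) :
    HasDerivAt (fun t : ℝ => Real.exp (2 * s) * (ξ ^ 2 + t ^ 2) / t)
      (Real.exp (2 * s) * (1 - ξ ^ 2 / y ^ 2)) y := by
  have h4 : HasDerivAt (fun t : ℝ => Real.exp (2 * s) * (ξ ^ 2 + t ^ 2)) (Real.exp (2 * s) * (2 * y)) y := by
    have := ((hasDerivAt_pow 2 y).const_add (ξ ^ 2)).const_mul (Real.exp (2 * s))
    simpa using this
  have h5 := h4.div (hasDerivAt_id y) hy.ne'
  have e : Real.exp (2 * s) * (1 - ξ ^ 2 / y ^ 2) =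
      (Real.exp (2 * s) * (2 * y) * id y - Real.exp (2 * s) * (ξ ^ 2 + y ^ 2) * 1) / id y ^ 2 := by
    simp only [id]
    field_simp
    ring
  rw [e]
  exact h5

theorem K0_dY {φ : ℝ → ℝ} (hφ : ContDiff ℝ ∞ φ) (s x y : ℝ) (hy : 0 < y) :
    HasDerivAt (fun t => K0_K φ s x t) (∫ ξ in (0 : ℝ)..x, Real.exp s *
      (deriv φ (Real.exp (2 * s) * (ξ ^ 2 + y ^ 2) / y) * (Real.exp (2 * s) * (1 - ξ ^ 2 / y ^ 2)))) y := by
  have h1 := K0_smooth' hφ
  have hc := hφ.continuous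
  have hc1 := h1.continuous
  have hu : ContinuousOn (fun p : ℝ × ℝ => Real.exp (2 * s) * (p.2 ^ 2 + p.1 ^ 2) / p.1) (Ioi 0 ×ˢ univ) := by
    apply ContinuousOn.div (by fun_prop) (by fun_prop)
    rintro p ⟨hp, -⟩
    exact ne_of_gt hp
  apply K0_diff (fun t ξ => Real.exp s * φ (Real.exp (2 * s) * (ξ ^ 2 + t ^ 2) / t))
    (fun t ξ => Real.exp s *
      (deriv φ (Real.exp (2 * s) * (ξ ^ 2 + t ^ 2) / t) * (Real.exp (2 * s) * (1 - ξ ^ 2 / t ^ 2)))) y 0 x (Ioi 0)
      isOpen_Ioi hy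
  · exact continuousOn_const.mul (hc.comp_continuousOn hu)
  · refine continuousOn_const.mul ((hc1.comp_continuousOn hu).mul (continuousOn_const.mul ?_))
    refine continuousOn_const.sub (ContinuousOn.div (by fun_prop) (by fun_prop) ?_)
    rintro p ⟨hp, -⟩
    exact pow_ne_zero _ (ne_of_gt hp)
  · intro t ht ξ
    have h2 : HasDerivAt φ (deriv φ (Real.exp (2 * s) * (ξ ^ 2 + t ^ 2) / t))
      (Real.exp (2 * s) * (ξ ^ 2 + t ^ 2) / t) := ((hφ.differentiable (by norm_num)) _).hasDerivAt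
    exact (HasDerivAt.comp (h := fun t : ℝ => Real.exp (2 * s) * (ξ ^ 2 + t ^ 2) / t) t h2
      (K0_uy s ξ t ht)).const_mul _

theorem K0_dYY {φ : ℝ → ℝ} (hφ : ContDiff ℝ ∞ φ) (s x y : ℝ) (hy : 0 < y) :
    HasDerivAt (fun y => ∫ ξ in (0 : ℝ)..x, Real.exp s *
      (deriv φ (Real.exp (2 * s) * (ξ ^ 2 + y ^ 2) / y) * (Real.exp (2 * s) * (1 - ξ ^ 2 / y ^ 2))))
      (∫ ξ in (0 : ℝ)..x, Real.exp s *
        (deriv (deriv φ) (Real.exp (2 * s) * (ξ ^ 2 + y ^ 2) / y) * (Real.exp (2 * s) * (1 - ξ ^ 2 / y ^ 2)) *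
          (Real.exp (2 * s) * (1 - ξ ^ 2 / y ^ 2)) +
        deriv φ (Real.exp (2 * s) * (ξ ^ 2 + y ^ 2) / y) * (Real.exp (2 * s) * (2 * ξ ^ 2 / y ^ 3)))) y := by
  have h1 := K0_smooth' hφ
  have h2 := K0_smooth' h1
  have hc := hφ.continuous
  have hc1 := h1.continuous
  have hc2 := h2.continuous
  have hu : ContinuousOn (fun p : ℝ × ℝ => Real.exp (2 * s) * (p.2 ^ 2 + p.1 ^ 2) / p.1) (Ioi 0 ×ˢ univ) := by
    apply ContinuousOn.div (by fun_prop) (by fun_prop)
    rintro p ⟨hp, -⟩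
    exact ne_of_gt hp
  have hw : ContinuousOn (fun p : ℝ × ℝ => Real.exp (2 * s) * (1 - p.2 ^ 2 / p.1 ^ 2)) (Ioi 0 ×ˢ univ) := by
    refine continuousOn_const.mul (continuousOn_const.sub (ContinuousOn.div (by fun_prop) (by fun_prop) ?_))
    rintro p ⟨hp, -⟩
    exact pow_ne_zero _ (ne_of_gt hp)
  have hw2 : ContinuousOn (fun p : ℝ × ℝ => Real.exp (2 * s) * (2 * p.2 ^ 2 / p.1 ^ 3)) (Ioi 0 ×ˢ univ) := by
    refine continuousOn_const.mul (ContinuousOn.div (by fun_prop) (by fun_prop) ?_)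
    rintro p ⟨hp, -⟩
    exact pow_ne_zero _ (ne_of_gt hp)
  apply K0_diff (fun t ξ => Real.exp s *
      (deriv φ (Real.exp (2 * s) * (ξ ^ 2 + t ^ 2) / t) * (Real.exp (2 * s) * (1 - ξ ^ 2 / t ^ 2))))
    (fun t ξ => Real.exp s *
        (deriv (deriv φ) (Real.exp (2 * s) * (ξ ^ 2 + t ^ 2) / t) * (Real.exp (2 * s) * (1 - ξ ^ 2 / t ^ 2)) *
          (Real.exp (2 * s) * (1 - ξ ^ 2 / t ^ 2)) +
        deriv φ (Real.exp (2 * s) * (ξ ^ 2 + t ^ 2) / t) * (Real.exp (2 * s) * (2 * ξ ^ 2 / t ^ 3)))) y 0 x (Ioi 0)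
      isOpen_Ioi hy
  · exact continuousOn_const.mul ((hc1.comp_continuousOn hu).mul hw)
  · exact continuousOn_const.mul ((((hc2.comp_continuousOn hu).mul hw).mul hw).add
      ((hc1.comp_continuousOn hu).mul hw2))
  · intro t ht ξ
    have ht' : (0 : ℝ) < t := ht
    have h3 : HasDerivAt (deriv φ) (deriv (deriv φ) (Real.exp (2 * s) * (ξ ^ 2 + t ^ 2) / t))
      (Real.exp (2 * s) * (ξ ^ 2 + t ^ 2) / t) := ((h1.differentiable (by norm_num)) _).hasDerivAt
    have h4 := HasDerivAt.comp (h := fun t : ℝ => Real.exp (2 * s) * (ξ ^ 2 + t ^ 2) / t) t h3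
      (K0_uy s ξ t ht)
    have h5 : HasDerivAt (fun t : ℝ => Real.exp (2 * s) * (1 - ξ ^ 2 / t ^ 2))
        (Real.exp (2 * s) * (2 * ξ ^ 2 / t ^ 3)) t := by
      have h6 : HasDerivAt (fun t : ℝ => t ^ 2) (2 * t) t := by simpa using hasDerivAt_pow 2 t
      have h7 := (((hasDerivAt_const t (ξ ^ 2)).div h6 (by positivity)).const_sub 1).const_mul (Real.exp (2 * s))
      have e : Real.exp (2 * s) * (2 * ξ ^ 2 / t ^ 3) =
          Real.exp (2 * s) * -((0 * t ^ 2 - ξ ^ 2 * (2 * t)) / (t ^ 2) ^ 2) := by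
        field_simp
        ring
      rw [e]
      exact h7
    have h8 := (h4.mul h5).const_mul (Real.exp s)
    exact h8

/-- the wave equation for the integral -/
theorem K0_wave {φ : ℝ → ℝ} (hφ : ContDiff ℝ ∞ φ) (s x y : ℝ) (hy : 0 < y) :
    K0_K (K0_T (K0_T φ)) s x y = 4 * y ^ 2 *
      (Real.exp s * (deriv φ (Real.exp (2 * s) * (x ^ 2 + y ^ 2) / y) * (Real.exp (2 * s) * (2 * x) / y)) +
      ∫ ξ in (0 : ℝ)..x, Real.exp s *
        (deriv (deriv φ) (Real.exp (2 * s) * (ξ ^ 2 + y ^ 2) / y) * (Real.exp (2 * s) * (1 - ξ ^ 2 / y ^ 2)) *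
          (Real.exp (2 * s) * (1 - ξ ^ 2 / y ^ 2)) +
        deriv φ (Real.exp (2 * s) * (ξ ^ 2 + y ^ 2) / y) * (Real.exp (2 * s) * (2 * ξ ^ 2 / y ^ 3)))) +
      K0_K φ s x y := by
  have h1 := K0_smooth' hφ
  have h2 := K0_smooth' h1
  have hc := hφ.continuous
  have hc1 := h1.continuous
  have hc2 := h2.continuous
  have hT : ∀ v, K0_T (K0_T φ) v = φ v + 8 * v * deriv φ v + 4 * v ^ 2 * deriv (deriv φ) v := by
    intro v
    have h3 : HasDerivAt φ (deriv φ v) v := ((hφ.differentiable (by norm_num)) _).hasDerivAt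
    have h4 : HasDerivAt (deriv φ) (deriv (deriv φ) v) v := ((h1.differentiable (by norm_num)) _).hasDerivAt
    have h5 : HasDerivAt (fun v : ℝ => 2 * v) 2 v := by simpa using (hasDerivAt_id v).const_mul 2
    have h6 : HasDerivAt (K0_T φ) (deriv φ v + (2 * deriv φ v + 2 * v * deriv (deriv φ) v)) v :=
      h3.add (h5.mul h4)
    unfold K0_T
    unfold K0_T at h6
    rw [h6.deriv]
    ring
  have hP : Real.exp s * (deriv φ (Real.exp (2 * s) * (x ^ 2 + y ^ 2) / y) * (Real.exp (2 * s) * (2 * x) / y)) =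
      ∫ ξ in (0 : ℝ)..x, Real.exp s *
        (deriv (deriv φ) (Real.exp (2 * s) * (ξ ^ 2 + y ^ 2) / y) * (Real.exp (2 * s) * (2 * ξ) / y) *
          (Real.exp (2 * s) * (2 * ξ) / y) +
        deriv φ (Real.exp (2 * s) * (ξ ^ 2 + y ^ 2) / y) * (Real.exp (2 * s) * 2 / y)) := by
    rw [intervalIntegral.integral_eq_sub_of_hasDerivAt
      (f := fun ξ => Real.exp s * (deriv φ (Real.exp (2 * s) * (ξ ^ 2 + y ^ 2) / y) *
        (Real.exp (2 * s) * (2 * ξ) / y)))]
    · simp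
    · intro ξ _
      have h3 : HasDerivAt (deriv φ) (deriv (deriv φ) (Real.exp (2 * s) * (ξ ^ 2 + y ^ 2) / y))
        (Real.exp (2 * s) * (ξ ^ 2 + y ^ 2) / y) := ((h1.differentiable (by norm_num)) _).hasDerivAt
      have h4 : HasDerivAt (fun t : ℝ => Real.exp (2 * s) * (t ^ 2 + y ^ 2) / y)
          (Real.exp (2 * s) * (2 * ξ) / y) ξ := by
        have h5 : HasDerivAt (fun t : ℝ => t ^ 2 + y ^ 2) (2 * ξ) ξ := by
          have := (hasDerivAt_pow 2 ξ).add_const (y ^ 2)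
          simpa using this
        exact (h5.const_mul _).div_const _
      have h5 : HasDerivAt (fun t : ℝ => Real.exp (2 * s) * (2 * t) / y) (Real.exp (2 * s) * 2 / y) ξ := by
        have h6 : HasDerivAt (fun t : ℝ => 2 * t) 2 ξ := by simpa using (hasDerivAt_id ξ).const_mul 2
        exact (h6.const_mul _).div_const _
      exact ((h3.comp ξ h4).mul h5).const_mul _
    · apply Continuous.intervalIntegrable; fun_prop
  rw [hP]
  unfold K0_K
  rw [← intervalIntegral.integral_add, ← intervalIntegral.integral_const_mul, ← intervalIntegral.integral_add]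
  · refine intervalIntegral.integral_congr fun ξ _ => ?_
    rw [hT]
    field_simp
    ring
  · apply Continuous.intervalIntegrable; fun_prop
  · apply Continuous.intervalIntegrable; fun_prop
  · apply Continuous.intervalIntegrable; fun_prop
  · apply Continuous.intervalIntegrable; fun_prop

/-- module K0 -/
theorem K0 (hPI : PI_stmt) (hPD : PD_stmt) : K0_stmt := by
  intro g hg
  have hφ := K0_Gsmooth hPI hg
  set φ := K0_G g with hφd
  set c : ℝ := -(1 / Real.pi) with hc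
  have hk : ∀ s x y, 0 < y → k0 g s x y = c * K0_K φ s x y := fun s x y hy => K0_k0 g s x y hy
  have hTφ := K0_Tsmooth hφ
  have hdS : ∀ s x y, 0 < y → dS (k0 g) s x y = c * K0_K (K0_T φ) s x y := by
    intro s x y hy
    have : (fun t => k0 g t x y) = fun t => c * K0_K φ t x y := funext fun t => hk t x y hy
    unfold dS
    rw [this]
    exact ((K0_dS hφ s x y).const_mul c).deriv
  refine ⟨?_, ?_, ?_⟩
  · unfold Sm
    have h1 := K0_Ksmooth hPI hφ
    unfold Sm at h1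
    refine (contDiffOn_const (c := c)).mul h1 |>.congr fun p hp => ?_
    exact hk _ _ _ hp
  · intro s x y hy
    have e1 : dS (dS (k0 g)) s x y = c * K0_K (K0_T (K0_T φ)) s x y := by
      have : (fun t => dS (k0 g) t x y) = fun t => c * K0_K (K0_T φ) t x y := funext fun t => hdS t x y hy
      show deriv (fun t => dS (k0 g) t x y) s = _
      rw [this]
      exact ((K0_dS hTφ s x y).const_mul c).deriv
    have e2 : ∀ x, dX (k0 g) s x y = c * (Real.exp s * φ (Real.exp (2 * s) * (x ^ 2 + y ^ 2) / y)) := by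
      intro x
      have : (fun t => k0 g s t y) = fun t => c * K0_K φ s t y := funext fun t => hk s t y hy
      unfold dX
      rw [this]
      exact ((K0_dX hφ s x y).const_mul c).deriv
    have e3 : dX (dX (k0 g)) s x y = c * (Real.exp s * (deriv φ (Real.exp (2 * s) * (x ^ 2 + y ^ 2) / y) *
        (Real.exp (2 * s) * (2 * x) / y))) := by
      have : (fun t => dX (k0 g) s t y) =
          fun t => c * (Real.exp s * φ (Real.exp (2 * s) * (t ^ 2 + y ^ 2) / y)) := funext fun t => e2 t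
      show deriv (fun t => dX (k0 g) s t y) x = _
      rw [this]
      exact ((K0_dU hφ s x y).const_mul c).deriv
    have e4 : ∀ y, 0 < y → dY (k0 g) s x y = c * (∫ ξ in (0 : ℝ)..x, Real.exp s *
        (deriv φ (Real.exp (2 * s) * (ξ ^ 2 + y ^ 2) / y) * (Real.exp (2 * s) * (1 - ξ ^ 2 / y ^ 2)))) := by
      intro y hy
      have : (fun t => k0 g s x t) =ᶠ[𝓝 y] fun t => c * K0_K φ s x t := by
        filter_upwards [Ioi_mem_nhds hy] with t ht
        exact hk s x t ht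
      unfold dY
      rw [this.deriv_eq]
      exact ((K0_dY hφ s x y hy).const_mul c).deriv
    have e5 : dY (dY (k0 g)) s x y = c * (∫ ξ in (0 : ℝ)..x, Real.exp s *
        (deriv (deriv φ) (Real.exp (2 * s) * (ξ ^ 2 + y ^ 2) / y) * (Real.exp (2 * s) * (1 - ξ ^ 2 / y ^ 2)) *
          (Real.exp (2 * s) * (1 - ξ ^ 2 / y ^ 2)) +
        deriv φ (Real.exp (2 * s) * (ξ ^ 2 + y ^ 2) / y) * (Real.exp (2 * s) * (2 * ξ ^ 2 / y ^ 3)))) := by
      have : (fun t => dY (k0 g) s x t) =ᶠ[𝓝 y] fun t => c * (∫ ξ in (0 : ℝ)..x, Real.exp s *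
        (deriv φ (Real.exp (2 * s) * (ξ ^ 2 + t ^ 2) / t) * (Real.exp (2 * s) * (1 - ξ ^ 2 / t ^ 2)))) := by
        filter_upwards [Ioi_mem_nhds hy] with t ht
        exact e4 t ht
      show deriv (fun t => dY (k0 g) s x t) y = _
      rw [this.deriv_eq]
      exact ((K0_dYY hφ s x y hy).const_mul c).deriv
    rw [e1, e3, e5, hk s x y hy, K0_wave hφ s x y hy]
    ring
  · intro s x y hy
    rw [hdS s x y hy, K0_k0 (DD g) s x y hy, hφd, K0_TG' hPD hg]

end SF
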